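import Pool.Agent.Work.MP_f6e869_pe.Main
import Pool.Agent.Work.MP_f6e869_pe.Local
import Pool.Agent.Work.MP_f6e869_pe.B_ORE
import Pool.Agent.Work.MP_f6e869_pe.B_DEG
import Pool.Agent.Work.MP_f6e869_pe.B_PIG
import Pool.Agent.Work.MP_f6e869_pe.B_PTH
import Pool.Agent.Work.MP_f6e869_pe.B_CYC

/-!
# A local criterion for pancyclic edges on a hamiltonian cycle (MP_f6e869_co)

Four consecutive vertices `c i, c (i+1), c (i+2), c (i+3)` of a hamiltonian cycle of a graph with
`n ≥ 5` vertices: if the degree sum of the two middle ones is at least `n + 1` and that of the two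
outer ones is at least `n + 2`, the middle edge is pancyclic.
-/

set_option autoImplicit false

namespace Pool.Agent.Results.MP_f6e869_co.LocalCriterion

theorem result :
    ∀ (V : Type) [Fintype V] (G : SimpleGraph V) (n : ℕ) (c : ℕ → V) (i : ℕ),
      Fintype.card V = n → 5 ≤ n →
      (∀ j, c (j + n) = c j) → (∀ a b, a < n → b < n → c a = c b → a = b) →
      (∀ j, G.Adj (c j) (c (j + 1))) →
      n + 1 ≤ (G.neighborSet (c (i + 1))).ncard + (G.neighborSet (c (i + 2))).ncard →
      n + 2 ≤ (G.neighborSet (c i)).ncard + (G.neighborSet (c (i + 3))).ncard →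
      ∀ k : ℕ, 3 ≤ k → k ≤ n →
        ∃ w : G.Walk (c (i + 1)) (c (i + 1)), w.IsCycle ∧ w.length = k ∧
          s(c (i + 1), c (i + 2)) ∈ w.edges := by
  intro V _ G n c i hV hn h1 h2 h3 hf hg
  subst hV
  exact (Pool.PE.loc Pool.PE.p_ORE Pool.PE.p_DEG Pool.PE.p_PIG Pool.PE.p_PTH Pool.PE.p_CYC V G c i
    hn ⟨h1, h2, h3⟩ hf hg).2

end Pool.Agent.Results.MP_f6e869_co.LocalCriterion
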