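import Pool.Agent.Work.MP_f6e869_pe.B_HC
import Pool.Agent.Work.MP_f6e869_nb.B_KILL2x
import Pool.Agent.Work.MP_f6e869_nb.B_KILL1
import Pool.Agent.Work.MP_f6e869_nb.B_PA1
import Pool.Agent.Work.MP_f6e869_nb.B_PRE
import Pool.Agent.Work.MP_f6e869_nb.B_APP
import Pool.Agent.Work.MP_f6e869_nb.B_P4
import Pool.Agent.Work.MP_f6e869_nb.B_P
import Pool.Agent.Work.MP_f6e869_nb.B_CE
import Pool.Agent.Work.MP_f6e869_nb.B_CO
import Pool.Agent.Work.MP_f6e869_nb.B_GOOD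
import Pool.Agent.Work.MP_f6e869_nb.B_SYM
import Pool.Agent.Work.MP_f6e869_nb.B_XXx
import Pool.Agent.Work.MP_f6e869_nb.B_HE
import Pool.Agent.Work.MP_f6e869_nb.B_HO
import Pool.Agent.Work.MP_f6e869_nb.B_EC
import Pool.Agent.Work.MP_f6e869_nb.B_COM
import Pool.Agent.Work.MP_f6e869_nb.B_O1
import Pool.Agent.Work.MP_f6e869_nb.B_O2
import Pool.Agent.Work.MP_f6e869_nb.B_O3
import Pool.Agent.Work.MP_f6e869_nb.B_O4a
import Pool.Agent.Work.MP_f6e869_nb.B_O4b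
import Pool.Agent.Work.MP_f6e869_nb.B_ODDx
import Pool.Agent.Work.MP_f6e869_nb.B_EK
import Pool.Agent.Work.MP_f6e869_nb.B_E12
import Pool.Agent.Work.MP_f6e869_nb.B_E3a
import Pool.Agent.Work.MP_f6e869_nb.B_E3b
import Pool.Agent.Work.MP_f6e869_nb.B_E3c
import Pool.Agent.Work.MP_f6e869_nb.B_E3d
import Pool.Agent.Work.MP_f6e869_nb.B_EVE
import Pool.Agent.Work.MP_f6e869_nb.B_SET
import Pool.Agent.Work.MP_f6e869_nb.B_NB

/-!
# Pancyclic edges in nearly bipartite graphs (MP_f6e869_co)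

The conjecture for all graphs which become bipartite when one edge is deleted, with `BT(n)` as
the exact exception.
-/

set_option autoImplicit false

namespace Pool.Agent.Results.MP_f6e869_co.NearlyBipartite

open Pool.NB

theorem result :
    ∀ (V : Type) [Fintype V] [DecidableEq V] (G : SimpleGraph V),
      7 ≤ Fintype.card V → G.IsHamiltonian →
      (Fintype.card V - 1) ^ 2 / 4 + 2 ≤ G.edgeSet.ncard →
      ¬ G.IsBipartite →
      (∃ x y : V, G.Adj x y ∧ (G.deleteEdges {s(x, y)}).IsBipartite) →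
      (∃ u v : V, G.Adj u v ∧ ∀ k : ℕ, 3 ≤ k → k ≤ Fintype.card V →
        ∃ w : G.Walk u u, w.IsCycle ∧ w.length = k ∧ s(u, v) ∈ w.edges) ∨
      ∃ k : ℕ, Fintype.card V = 2 * k + 1 ∧ Nonempty (G ≃g BT k) := by
  have hP := p_P p_KILL1 p_PRE p_APP p_P4
  have hGOOD := p_GOOD p_CE p_CO
  have hO1 := p_O1 p_COM hP p_KILL1 p_PA1 hGOOD
  have hO2 := p_O2 p_COM hP p_KILL1 p_PA1 hGOOD
  have hO4a := p_O4a p_KILL2 p_KILL1 p_PA1 p_PRE p_APP hP hGOOD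
  have hO4b := p_O4b p_KILL2 p_KILL1 p_PA1 p_PRE p_APP hP hGOOD
  have hODD := p_ODD p_SYM hO1 hO2 p_O3 hO4a hO4b
  have hEK := p_EK p_PA1 p_PRE p_P4 hP hGOOD
  have hE12 := p_E12 p_COM p_KILL1 p_PA1 hP hGOOD
  have hE3a := p_E3a p_COM p_KILL2 hEK
  have hE3b := p_E3b p_SYM p_COM p_KILL2 hEK
  have hE3c := p_E3c p_COM p_KILL2 hEK
  have hE3d := p_E3d p_KILL2 p_KILL1 p_PA1 p_APP hP hGOOD
  have hEVE := p_EVE p_SYM hE12 hE3a hE3b hE3c hE3d
  have hNB := p_NB Pool.PE.p_HC p_SET p_XX p_EC p_HE p_HO hODD hEVE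
  intro V _ _ G h1 h2 h3 h4 h5
  exact hNB V G h1 h2 h3 h4 h5

end Pool.Agent.Results.MP_f6e869_co.NearlyBipartite
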