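import Pool.Agent.Work.MP_f6e869_pe.Main
import Pool.Agent.Work.MP_f6e869_pe.B_HC
import Pool.Agent.Work.MP_f6e869_pe.B_CNT
import Pool.Agent.Work.MP_f6e869_pe.B_ORE
import Pool.Agent.Work.MP_f6e869_pe.B_DEG
import Pool.Agent.Work.MP_f6e869_pe.B_PIG
import Pool.Agent.Work.MP_f6e869_pe.B_PTH
import Pool.Agent.Work.MP_f6e869_pe.B_CYC

/-!
# A pancyclic edge in dense hamiltonian graphs (MP_f6e869_co)

Every hamiltonian graph with `n ≥ 5` vertices and more than `(3 n ^ 2 - n) / 8` edges has a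
pancyclic edge: an edge `u v` which lies on a cycle of each length `3, ..., n`.
-/

set_option autoImplicit false

namespace Pool.Agent.Results.MP_f6e869_co.PancyclicEdge

theorem result :
    ∀ (V : Type) [Fintype V] [DecidableEq V] (G : SimpleGraph V),
      5 ≤ Fintype.card V → G.IsHamiltonian →
      3 * Fintype.card V ^ 2 < 8 * G.edgeSet.ncard + Fintype.card V →
      ∃ u v : V, G.Adj u v ∧ ∀ k : ℕ, 3 ≤ k → k ≤ Fintype.card V →
        ∃ w : G.Walk u u, w.IsCycle ∧ w.length = k ∧ s(u, v) ∈ w.edges :=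
  Pool.PE.fin Pool.PE.p_HC Pool.PE.p_CNT Pool.PE.p_ORE Pool.PE.p_DEG Pool.PE.p_PIG
    Pool.PE.p_PTH Pool.PE.p_CYC

end Pool.Agent.Results.MP_f6e869_co.PancyclicEdge
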